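import Pool.Agent.R241.CE.C5

/-!
# MP_ce4ed9_an: transitivity versus LEO for `x ↦ β x + α mod 1`

The set of parameters in the triangle for which the map is topologically transitive but not
locally eventually onto is countable.
-/

namespace Pool.Agent.Results.MP_ce4ed9_an.CountableExceptions

open Set Pool.Agent.R241.CE

/-- The map `T_{α,β}(x) = β x + α (mod 1)` on `[0,1)`. -/
noncomputable def T (α β : ℝ) (x : Ico (0 : ℝ) 1) : Ico (0 : ℝ) 1 :=
  ⟨Int.fract (β * x + α), Int.fract_nonneg _, Int.fract_lt_one _⟩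

/-- Topological transitivity. -/
def Transitive {X : Type*} [TopologicalSpace X] (f : X → X) : Prop :=
  ∀ U V : Set X, IsOpen U → IsOpen V → U.Nonempty → V.Nonempty →
    ∃ n : ℕ, 1 ≤ n ∧ (f^[n] '' U ∩ V).Nonempty

/-- Locally eventually onto. -/
def LEO {X : Type*} [TopologicalSpace X] (f : X → X) : Prop :=
  ∀ U : Set X, IsOpen U → U.Nonempty → ∃ n : ℕ, 1 ≤ n ∧ f^[n] '' U = univ

/-- The parameter set `𝒯`. -/
def Params : Set (ℝ × ℝ) :=
  {p | 1 < p.2 ∧ p.2 ≤ 2 ∧ 0 ≤ p.1 ∧ p.1 + p.2 ≤ 2}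

/-- The exceptional set `E`. -/
def E : Set (ℝ × ℝ) :=
  {p | p ∈ Params ∧ Transitive (T p.1 p.2) ∧ ¬ LEO (T p.1 p.2)}

variable {α β : ℝ}

theorem T_eq (h : Par α β) (x : Ico (0 : ℝ) 1) : (T α β x : ℝ) = F α β x := by
  have hb := h.b1
  have ha := h.a0
  have hab := h.ab
  obtain ⟨x, h0, h1⟩ := x
  change Int.fract (β * x + α) = F α β x
  rcases lt_or_ge x (cc α β) with hc | hc
  · have h2 := F_mem_Ico h ⟨h0, h1⟩
    rw [F_left hc] at h2 ⊢
    exact Int.fract_eq_self.mpr ⟨h2.1, h2.2⟩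
  · have h2 := F_mem_Ico h ⟨h0, h1⟩
    rw [F_right hc] at h2 ⊢
    rw [Int.fract_eq_iff]
    exact ⟨h2.1, h2.2, 1, by push_cast; ring⟩

theorem iter_eq (h : Par α β) (n : ℕ) (x : Ico (0 : ℝ) 1) :
    (((T α β)^[n] x : Ico (0 : ℝ) 1) : ℝ) = (F α β)^[n] x := by
  induction n with
  | zero => rfl
  | succ n ih =>
    rw [Function.iterate_succ_apply', Function.iterate_succ_apply', T_eq h, ih]

theorem TR_of (h : Par α β) (ht : Transitive (T α β)) : TR α β := by
  have hb := h.b1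
  rintro O V hO hV ⟨x, hx1, hx2⟩ ⟨y, hy1, hy2⟩
  have hO' : IsOpen {z : Ico (0 : ℝ) 1 | (z : ℝ) ∈ O} := hO.preimage continuous_subtype_val
  have hV' : IsOpen {z : Ico (0 : ℝ) 1 | (z : ℝ) ∈ V} := hV.preimage continuous_subtype_val
  obtain ⟨n, _, w, ⟨z, hz, rfl⟩, hw⟩ := ht _ _ hO' hV' ⟨⟨x, hx2.1.le, hx2.2⟩, hx1⟩
    ⟨⟨y, hy2.1.le, hy2.2⟩, hy1⟩
  have hz' : (z : ℝ) ∈ O := hz
  have hw' : (F α β)^[n] z ∈ V := by
    rw [← iter_eq h]
    exact hw
  obtain ⟨e, he, hgood⟩ := pert h z.2 n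
  obtain ⟨e1, he1, h1⟩ := Metric.isOpen_iff.mp hO _ hz'
  obtain ⟨e2, he2, h2⟩ := Metric.isOpen_iff.mp hV _ hw'
  have hp : 0 < β ^ n := by positivity
  set t := min e (min e1 (e2 / β ^ n)) / 2 with ht'
  have hm : 0 < min e (min e1 (e2 / β ^ n)) := lt_min he (lt_min he1 (by positivity))
  have ht0 : 0 < t := by linarith
  have hte : t < e := by
    have := min_le_left e (min e1 (e2 / β ^ n))
    linarith
  have hte1 : t < e1 := by
    have := (min_le_right e (min e1 (e2 / β ^ n))).trans (min_le_left _ _)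
    linarith
  have hte2 : β ^ n * t < e2 := by
    have h3 := (min_le_right e (min e1 (e2 / β ^ n))).trans (min_le_right _ _)
    have h4 : t < e2 / β ^ n := by linarith
    rw [lt_div_iff₀ hp] at h4
    linarith [mul_comm t (β ^ n)]
  refine ⟨n, (F α β)^[n] z + β ^ n * t, ?_, ?_⟩
  · rw [mem_iter]
    refine ⟨z + t, h1 ?_, hgood t ht0 hte⟩
    rw [Metric.mem_ball, Real.dist_eq, add_sub_cancel_left, abs_of_pos ht0]
    exact hte1
  · apply h2
    rw [Metric.mem_ball, Real.dist_eq, add_sub_cancel_left, abs_of_pos (by positivity)]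
    exact hte2

theorem LEO_of (h : Par α β) (htr : TR α β) (hcyc : ¬ ∃ P, Cycle α β P) : LEO (T α β) := by
  intro U hU hne
  obtain ⟨z, hz⟩ := hne
  obtain ⟨e, he, h1⟩ := Metric.isOpen_iff.mp hU z hz
  have hz0 := z.2.1
  have hz1 := z.2.2
  set r := min e (1 - (z : ℝ)) with hr
  have hr0 : 0 < r := lt_min he (by linarith)
  have hre : r ≤ e := min_le_left _ _
  have hr1 : r ≤ 1 - z := min_le_right _ _
  obtain ⟨n, hn, hall⟩ := leo h htr hcyc (u := z) (v := z + r) (by linarith)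
    (Ioo_subset_Ioo hz0 (by linarith))
  refine ⟨n, hn, ?_⟩
  apply Set.eq_univ_of_forall
  intro y
  obtain ⟨x, hx, hxy⟩ := hall y y.2
  have hx' : x ∈ Ico (0 : ℝ) 1 := ⟨by linarith [hx.1], by linarith [hx.2]⟩
  refine ⟨⟨x, hx'⟩, h1 ?_, ?_⟩
  · rw [Metric.mem_ball, Subtype.dist_eq, Real.dist_eq]
    change |x - z| < e
    rw [abs_of_pos (by linarith [hx.1])]
    linarith [hx.2]
  · apply Subtype.ext
    rw [iter_eq h]
    exact hxy

/-- **MP_ce4ed9_an (Q1, positive answer).**  The set `E` of parameters in `𝒯` for which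
`T_{α,β}` is topologically transitive but not topologically LEO is countable. -/
theorem result : E.Countable := by
  have hcover : E ⊆ ⋃ n : ℕ, ⋃ L : List Bool,
      {p : ℝ × ℝ | 1 < p.2 ∧ 1 ≤ n ∧ p.2 ^ n = 2 ∧ p.1 * p.2 = (p.2 - 1) * pe L p.2} := by
    rintro ⟨α, β⟩ ⟨⟨h1, h2, h3, h4⟩, ht, hl⟩
    have h : Par α β := ⟨h1, h2, h3, h4⟩
    have htr := TR_of h ht
    by_cases hcyc : ∃ P, Cycle α β P
    · obtain ⟨P, hP⟩ := hcyc
      obtain ⟨n, hn, hpow, L, hL⟩ := cycle_params h htr hP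
      exact mem_iUnion.mpr ⟨n, mem_iUnion.mpr ⟨L, h1, hn, hpow, hL⟩⟩
    · exact absurd (LEO_of h htr hcyc) hl
  refine Set.Countable.mono hcover ?_
  refine Set.countable_iUnion fun n => Set.countable_iUnion fun L => ?_
  apply Set.Subsingleton.countable
  rintro ⟨a, b⟩ ⟨h1, h2, h3, h4⟩ ⟨a', b'⟩ ⟨h1', _, h3', h4'⟩
  have hb : b = b' := by
    have e : b ^ n = b' ^ n := by rw [h3, h3']
    exact (pow_left_inj₀ (by linarith) (by linarith) (by omega)).mp e
  subst hb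
  have ha : a = a' := by
    have e : a * b = a' * b := by rw [h4, h4']
    exact mul_right_cancel₀ (by linarith) e
  rw [ha]

end Pool.Agent.Results.MP_ce4ed9_an.CountableExceptions
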